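import Pool.Agent.MVD.Stmts

/-!
# The class division if squares and cubes are central (MP_23468a_al)

Variant of squad MVD in which `x²` need not be an isoterm: `xyx` is an isoterm, `x² t ≈ t x²` and
`x³ t ≈ t x³` are in `β` (`CQ β`).  GOAL (`KaxStmt`): if moreover `ModF β`, then `β` is in one of the
classes `Ca`, `Ca'`, `Cc`, `Ve`, `Ve'`.
-/

namespace Pool.Agent.MVK

open Pool.Agent.Helper14_MV Pool.Agent.Helper2_MV Pool.Agent.MVD

/-- `x³ t ≈ t x³` -/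
def CU (β : FIC) : Prop := RR β [0, 0, 0, 2] [2, 0, 0, 0]

/-- squares and cubes are central -/
def CQ (β : FIC) : Prop := SQ β ∧ CU β

/-- in all words equivalent to `bw P Q m` the letter `y` occurs exactly twice -/
def CC (β : FIC) (P Q : List ℕ) (m : ℕ) : Prop :=
  ∀ w', RR β (bw P Q m) w' → w'.count 0 = 2

/-- KP2 with `Iso3` only: the letter `c` is split by a separator, so the projection to `c` and this
separator is an isoterm. -/
def Kp2Stmt : Prop := ∀ β : FIC, CQ β → Iso3 β → ∀ (R : List ℕ) (B B' : ℕ → List ℕ) (e : List ℕ),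
  R.Nodup → (∀ r ∈ R, SFr (B r)) → (∀ r ∈ R, SFr (B' r)) → SFr e →
    RR β (Bw R B) (Bw R B' ++ e) → ∀ (c r s : ℕ), c % 3 ≠ 2 → r ∈ R → s ∈ R → r ≠ s →
      (∀ q ∈ R, (B q).count c = if q = r ∨ q = s then 1 else 0) →
        (∀ q ∈ R, (B' q).count c = if q = r ∨ q = s then 1 else 0) ∧ e.count c = 0

/-- SHP: instead of KPL: the number of letters `y` is 2 by `CC`, no separator is between them. -/
def ShpStmt : Prop := ∀ β : FIC, CQ β → Iso3 β → ∀ (P Q : List ℕ) (m : ℕ), 1 ≤ m →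
  (P ++ Q).Perm (List.range m) → HH β P Q m → CC β P Q m → ∀ (g : Equiv.Perm (Fin 4)) (w w' : List ℕ),
    SS β P Q m g w → RR β w w' → SS β P Q m g w'

/-- FCT. Copy of `MVD.FctStmt`. -/
def FctStmt : Prop := ∀ β : FIC, CQ β → Iso3 β → ∀ (P Q : List ℕ) (m : ℕ), 1 ≤ m →
  (P ++ Q).Perm (List.range m) → HH β P Q m → CC β P Q m → ∀ (g : Equiv.Perm (Fin 4)) (L : List ℕ),
    SL β P Q m g L →
      (∀ j : Fin 4, ∀ k, (k = j.val ∨ k = j.val + 1) → ∀ e < m,
        Btw (3 * (g j).val) (3 * (5 * e + k) + 1) L) ∧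
      (∀ j : Fin 4, ∀ k < 5, ¬ (k = j.val ∨ k = j.val + 1) → ∃ e < m,
        ¬ Btw (3 * (g j).val) (3 * (5 * e + k) + 1) L)

/-- PWS. Copy of `MVD.PwsStmt`. -/
def PwsStmt : Prop := ∀ β : FIC, CQ β → Iso3 β → ∀ (P Q : List ℕ) (m : ℕ), 1 ≤ m →
  (P ++ Q).Perm (List.range m) → HH β P Q m → CC β P Q m → ∀ g : Equiv.Perm (Fin 4),
    SS β P Q m g (pw P Q m g)

/-- KEY. Copy of `MVD.KeyStmt`. -/
def KeyStmt : Prop := ∀ β : FIC, CQ β → Iso3 β → ∀ (P Q : List ℕ) (m : ℕ), 1 ≤ m →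
  (P ++ Q).Perm (List.range m) → HH β P Q m → CC β P Q m → ∀ (g h : Equiv.Perm (Fin 4)) (φ : ℕ → List ℕ)
    (M N : List ℕ), SS β P Q m h (M ++ ((pw P Q m g).flatMap φ ++ N)) →
      (∀ j : Fin 4, φ (3 * j.val) = []) ∨
        ∀ s : Equiv.Perm (Fin 4),
          M ++ ((pw P Q m (g * s)).flatMap φ ++ N) = pw P Q m (h * s)

/-- PN2. -/
def Pn2Stmt : Prop := ∀ β : FIC, ModF β → CQ β → Iso3 β → ∀ (P Q : List ℕ) (m : ℕ), 1 ≤ m →
  (P ++ Q).Perm (List.range m) →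
    ∃ w', RR β (bw P Q m) w' ∧ ¬ (w'.count 0 = 2 ∧ ∀ e < m, Btw 0 (3 * e + 1) w')

/-- the letter `y` is gathered: all `y` can be moved to the end -/
def Kd (β : FIC) (y : ℕ) (w : List ℕ) : Prop :=
  RR β w (w.filter (fun c => decide (c ≠ y)) ++ List.replicate (w.count y) y)

/-- the labels of the blocks of `Wm P Q L` -/
def Rl (P Q : List ℕ) : List ℕ := P.map (fun e => e + 1) ++ 0 :: Q.map (fun e => e + 1)

/-- main block `M`, place blocks `y^(a (e+1)) z_e y^(b (e+1))`, `y^f` at the end (`y` is the letter 0) -/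
def Wg (P Q M : List ℕ) (a b : ℕ → ℕ) (f : ℕ) : List ℕ :=
  Bw (Rl P Q) (fun r => if r = 0 then M else
    List.replicate (a r) 0 ++ ([3 * (r - 1) + 1] ++ List.replicate (b r) 0)) ++ List.replicate f 0

/-- the word `y^i z y^j s y^k z y^l t y^f` (`y = 0`, `z = 1`) -/
def V5 (s t i j k l f : ℕ) : List ℕ :=
  List.replicate i 0 ++ 1 :: (List.replicate j 0 ++ s :: (List.replicate k 0 ++ 1 ::
    (List.replicate l 0 ++ t :: List.replicate f 0)))

/-- **ABS** (uses nothing).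
PROOF. (1) General contexts of `CQ`: `p ++ y :: y :: (u ++ q) ~ p ++ (u ++ y :: y :: q)` and
`p ++ y :: y :: y :: (u ++ q) ~ p ++ (u ++ y :: y :: y :: q)` (substitute `0 ↦ y`, `2 ↦ u` in `SQ`, `CU`,
multiply by `p`, `q`; `RR.sub`, `RR.mul`).  (2) First claim: if `w = p ++ y :: y :: q`.  Induction on the number
of `y` in `p ++ q` (for all `p`, `q`): none: move `y y` to the end by `SQ`.  Otherwise claim more
generally, for `j ≥ 2`: `p ++ y^j ++ q ~ (p ++ q).filter (≠ y) ++ y^(j + (p ++ q).count y)`, by induction on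
`(p ++ q).count y`; `y^j`, `j ≥ 2`, is a product of squares and at most one cube, so it can be moved to
every place: move it next to a `y` of `p` or `q` (`j` becomes `j + 1`); no `y`: move it to the end.
(3) Second claim: erase `y` in `w ~ w'` (substitution `y ↦ []`): `w.filter (≠ y) ~ w'.filter (≠ y)`; erase all
other letters: `y^c ~ y^c'` (`c`, `c'` the counts); so `w ~ w' ~ w'.filter ++ y^c' ~ w.filter ++ y^c`. -/
def AbsStmt : Prop := ∀ β : FIC,
  (CQ β → ∀ (p q : List ℕ) (y : ℕ), Kd β y (p ++ y :: y :: q)) ∧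
  (∀ (y : ℕ) (w w' : List ℕ), RR β w w' → Kd β y w' → Kd β y w)

/-- **IBW** (uses nothing).  Insertion into the blocks: `U r` in front, `V r` behind.
PROOF. Induction on `R` for all `U'`.. or directly: substitution `σ_R` (recursion on `R`): `σ_[] c = [c]`;
`σ_(r :: R') c = V r ++ [3 r + 2] ++ hd R'` if `c = 3 r + 2`, `σ_R' c` otherwise, where `hd [] = U'` and
`hd (r :: R') = U r`.  Claim (induction on `R`, `R.Nodup`, `SFr`): `hd R ++ (Bw R B ++ e).flatMap σ_R =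
Bw R (fun r => U r ++ (B r ++ V r)) ++ (U' ++ e)` for all `B` with `SFr (B r)`, `r ∈ R`, and `SFr e` (letters
which are no separators are fixed by all `σ_R`; `3 r + 2` does not occur in `Bw R' B ++ e`, `r ∉ R'`; `σ_(r::R')` and
`σ_R'` agree on the letters of `Bw R' B ++ e`).  Then `RR.sub` and `RR.mul` (`hd R` in front). -/
def IbwStmt : Prop := ∀ (β : FIC) (R : List ℕ) (B C U V : ℕ → List ℕ) (e e' U' : List ℕ), R.Nodup →
  (∀ r ∈ R, SFr (B r)) → (∀ r ∈ R, SFr (C r)) → SFr e → SFr e' →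
    RR β (Bw R B ++ e) (Bw R C ++ e') →
      RR β (Bw R (fun r => U r ++ (B r ++ V r)) ++ (U' ++ e))
        (Bw R (fun r => U r ++ (C r ++ V r)) ++ (U' ++ e'))

/-- **SHK** (uses DEC of squad MVD, KP2).  The shape of the words equivalent to `bw P Q m`.
PROOF. `w' = Bw (Rl P Q) B' ++ e` (`MVD.DecStmt` for `bw P Q m = Bw (Rl P Q) B`).  The letter `3 e + 1`,
`e < m`, is once in block 0 and once in block `e + 1` (`Kp2Stmt`), so not elsewhere; the other letters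
of `w'` are the separators and `0` (`RR.content`).  So `B' (e+1)`, `e < m`, consists of one `3 e + 1` and letters
0: `0^a (3 e + 1) 0^b`; the tail is `0^f`; `(B' 0).filter (≠ 0)` consists of the letters `3 e + 1`, `e < m`, each
once: it is `zs D'`, `D'` a permutation of `List.range m`. -/
def ShkStmt : Prop := ∀ β : FIC, CQ β → Iso3 β → ∀ (P Q : List ℕ) (m : ℕ),
  (P ++ Q).Perm (List.range m) → ∀ w', RR β (bw P Q m) w' →
    ∃ (M D' : List ℕ) (a b : ℕ → ℕ) (f : ℕ), w' = Wg P Q M a b f ∧ D'.Perm (List.range m) ∧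
      M.filter (fun c => decide (c ≠ 0)) = zs D'

/-- **KGP** (uses INW of squad MVD, ABS).  A letter goes around a chain of length `< m` in any context.
PROOF. `MVD.InwStmt` for `p`, `q`, `D = u`, `y`: with `L = 0 :: (zs (range n) ++ [0])`, `n = u.length`:
`L.flatMap g = y :: (u ++ [y])`, so the word is `M ++ (bw P Q n).flatMap g`.  By hypothesis
`bw P Q n ~ F ++ [0, 0]` (`F` the word without 0, the count is 2: 0 is no letter `3 e + 1` and no separator), so the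
word is `~ M ++ F.flatMap g ++ [y, y]` and this is `Kd` by ABS (first part), so the word is (second part). -/
def KgpStmt : Prop := ∀ β : FIC, CQ β → ∀ m : ℕ,
  (∀ n < m, ∀ P Q : List ℕ, (P ++ Q).Perm (List.range n) → Kd β 0 (bw P Q n)) →
    ∀ (p u q : List ℕ) (y : ℕ), u.Nodup → y ∉ u → u.length < m → (∀ c ∈ u, c ∈ p ∨ c ∈ q) →
      Kd β y (p ++ y :: (u ++ y :: q))

/-- **KS1** (uses ABS, KGP).  Case distinction for the words of SHK.
PROOF. Suppose not `Kd β 0 w'`, `w' = Wg P Q M a b f`.  Two adjacent 0 are impossible (ABS): so `f ≤ 1` and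
`a (e+1), b (e+1) ≤ 1` for `e < m`.  If `2 ≤ m` and `a (e+1) = b (e+1) = 1`: `w' = p ++ 0 :: ([3 e + 1] ++ 0 :: q)`, and
`3 e + 1` occurs also in block 0 (`D'.Perm (range m)`): KGP with `u = [3 e + 1]`: excluded.  Block 0: if
`2 ≤ M.count 0`: `M = A ++ 0 :: (u ++ 0 :: C)`, `0 ∉ A`, `0 ∉ u`: the letters of `u` are letters of `zs D'`, each
once (`Nodup`), and they occur at their places: if `u.length < m`: KGP: excluded.  Otherwise `u` contains
all letters of `zs D'` (`u.length ≤ D'.length = m`), so `u = zs D'`, `A = []` and `C` has only letters 0: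
`C = []` (two adjacent 0 otherwise). -/
def Ks1Stmt : Prop := ∀ β : FIC, CQ β → ∀ m : ℕ, 1 ≤ m →
  (∀ n < m, ∀ P Q : List ℕ, (P ++ Q).Perm (List.range n) → Kd β 0 (bw P Q n)) →
    ∀ (P Q M D' : List ℕ) (a b : ℕ → ℕ) (f : ℕ), (P ++ Q).Perm (List.range m) →
      D'.Perm (List.range m) → M.filter (fun c => decide (c ≠ 0)) = zs D' →
        Kd β 0 (Wg P Q M a b f) ∨
          ((M.count 0 ≤ 1 ∨ M = 0 :: (zs D' ++ [0])) ∧ f ≤ 1 ∧
            (∀ e < m, a (e + 1) ≤ 1 ∧ b (e + 1) ≤ 1) ∧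
              (2 ≤ m → ∀ e < m, a (e + 1) + b (e + 1) ≤ 1))

/-- **KB1** (uses ABS, IBW).  At most one `y` in every block.
PROOF. Erase all letters `3 e + 1` in `bw P Q m ~ w'` (substitution `c ↦ []` if `c % 3 = 1`, `[c]` otherwise):
`Bw R B ++ [] ~ Bw R C ++ 0^f`, `R = Rl P Q`, `B 0 = [0, 0]`, `B r = []` for `r ≠ 0`, `C 0 = 0^(M.count 0)`,
`C r = 0^(a r + b r)`.  IBW with `U r ++ C r ++ V r` = block `r` of `w'` (possible since `C r` is empty or `[0]`:
`M = U 0 ++ 0 :: V 0` or `M = U 0`, `V 0 = []`; a place block is `0 z`, `z 0` or `z`), `U' = []`: `w'` is `~` the word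
with the blocks `U r ++ B r ++ V r`, in which block 0 is `U 0 ++ [0, 0] ++ V 0`: ABS. -/
def Kb1Stmt : Prop := ∀ β : FIC, CQ β → ∀ (P Q M : List ℕ) (m : ℕ) (a b : ℕ → ℕ) (f : ℕ),
  (P ++ Q).Perm (List.range m) → (∀ c ∈ M, c = 0 ∨ c % 3 = 1) →
    RR β (bw P Q m) (Wg P Q M a b f) → M.count 0 ≤ 1 → (∀ e < m, a (e + 1) + b (e + 1) ≤ 1) →
      Kd β 0 (Wg P Q M a b f)

/-- **KB2** (uses ABS, IBW).  Additional letters `y` besides a main block `y zs y`.
PROOF. `R = Rl P Q`, `w = bw P Q m`.  (1) Erase 0 in `w ~ w'`: `Wm P Q (zs (range m)) ~ Wm P Q (zs D')`; IBW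
with `U 0 = V 0 = [0]`, the other `U r = V r = []`: `w ~ W2 := Wm P Q (0 :: (zs D' ++ [0]))`.  (2) IBW with
`U r = 0^(a r)`, `V r = 0^(b r)` for `r ≠ 0`, `U 0 = V 0 = []`, `U' = 0^f`, applied to `w ~ W2`: `w2 ~ w'`, where `w2` is
`w` with these letters inserted; applied to `w ~ w'`: `w2 ~ w3`, `w3` = the word with the blocks
`0^(a r) 0^(a r) z 0^(b r) 0^(b r)` and the end `0^f 0^f`.  So `w ~ w' ~ w2 ~ w3`, and `w3` contains two adjacent 0:
ABS. -/
def Kb2Stmt : Prop := ∀ β : FIC, CQ β → ∀ (P Q D' : List ℕ) (m : ℕ) (a b : ℕ → ℕ) (f : ℕ),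
  (P ++ Q).Perm (List.range m) → D'.Perm (List.range m) →
    RR β (bw P Q m) (Wg P Q (0 :: (zs D' ++ [0])) a b f) →
      (1 ≤ f ∨ ∃ e < m, 1 ≤ a (e + 1) ∨ 1 ≤ b (e + 1)) → Kd β 0 (bw P Q m)

/-- **KM1** (uses ABS, PN2, SHK).  The case `m = 1`: the words `bw [] [0] 1 = V5 2 5 1 1 0 0 0` and
`bw [0] [] 1 = V5 5 2 0 0 1 1 0`.
PROOF. Write `v = (i, j, k, l, f)`, `W v = V5 2 5 i j k l f`, `W' v = V5 5 2 i j k l f` (the same after the renaming
`2 ↔ 5`, so `RR β (W v) (W v') ↔ RR β (W' v) (W' v')`, the same for `Kd β 0`).  FACTS: (I) `W v ~ W v'` implies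
`W (v + u) ~ W (v' + u)` (substitution `2 ↦ 0^(u j) 2 0^(u k)`, `5 ↦ 0^(u l) 5 0^(u f)`, `0^(u i)` in front).  (K) an
entry of `v` is `≥ 2`: `Kd β 0 (W v)` (ABS).  (L) `W v ~ W v'`, `Kd β 0 (W v)`: then `Kd β 0 (W (v' + u))`: it is enough
to show it for `W (v + u)` (I); if `v` has the count 2 (`v = w1` or `w2`): `W v ~ F ++ [0, 0]`, so `W (v + u) ~` a
word with two adjacent 0 (substitution of (I)).
Let `w1 = (1,1,0,0,0)`, `w2 = (0,0,1,1,0)`.  PN2 for `P = [], Q = [0]` and SHK: `W w1 ~ W v1`, `v1` not `w1`, not `w2`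
(in these words there are two 0 and a 1 between them).  PN2 for `P = [0], Q = []`: `W w2 ~ W v2`, `v2` not `w1`, `w2`.
CLAIM 1: `Kd (W w1)` or `v1 = w2 + E1`, `E1 ≠ 0`.  All entries of `v1` are `≤ 1` (K).  If
`v1 = w1 + E`, `E ≠ 0`: `W w1 ~ W (w1 + E) ~ W (w1 + 2E)`: (K).  If neither `i = j = 1` nor `k = l = 1`: erase 1:
`0 0 2 5 ~ 0^(i+j) 2 0^(k+l) 5 0^f` with exponents `≤ 1`; insert 1 into both words (`2 ↦ .. 2 ..` etc.: in front of or
behind the 0 in each block, as in `W v1`): `W v1 ~` a word with two adjacent 0: `Kd`.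
CLAIM 2 (symmetric): `Kd (W w2)` or `v2 = w1 + E2`, `E2 ≠ 0`.
If both second alternatives: `W w1 ~ W (w2 + E1) ~ W (w1 + E2 + E1) ~ W (w1 + 2 (E1 + E2))`: (K), so `Kd (W w1)`, and
`W w2 ~ W (w1 + E2)`: (L): `Kd (W w2)`.  If `Kd (W w2)` and `W w1 ~ W (w2 + E1)`: (L): `Kd (W w1)`.  If `Kd (W w1)` and
`W w2 ~ W (w1 + E2)`: (L). -/
def Km1Stmt : Prop := ∀ β : FIC, ModF β → CQ β → Iso3 β →
  Kd β 0 (bw [] [0] 1) ∧ Kd β 0 (bw [0] [] 1)

/-- **KM** (uses ABS, PN2, SHK, KS1, KB1, KB2, KM1).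
PROOF. Strong induction on `m`.  `m = 0`: `P = Q = []`, `bw [] [] 0 = [0, 0, 2]`: ABS.  `m = 1`: `P ++ Q = [0]`: KM1.
`m ≥ 2`: PN2 gives `w'`, SHK the form, KS1 (with the induction hypothesis): `Kd β 0 w'` (then ABS, second
part), or: `M.count 0 ≤ 1`: KB1, ABS second part; or `M = 0 :: (zs D' ++ [0])`: if there is another 0: KB2.
If not (`f = 0`, `a (e+1) = b (e+1) = 0` for `e < m`): `w' = Wm P Q (0 :: (zs D' ++ [0]))`: the number of 0 is 2
and all `3 e + 1` are between them: contradiction to PN2. -/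
def KmStmt : Prop := ∀ β : FIC, ModF β → CQ β → Iso3 β → ∀ (m : ℕ) (P Q : List ℕ),
  (P ++ Q).Perm (List.range m) → Kd β 0 (bw P Q m)

/-- **GTH** (uses ABS, KGP, KM).
PROOF. Strong induction on `u.length`, for all `p`, `q`, `y`; `w` the word.  (1) `y ∈ u`:
`u = u1 ++ y :: u2`: the induction hypothesis for `u1` (`q := u2 ++ y :: q`).  (2) `y ∉ u`, `u` has a repeated letter
`v`: `u = u1 ++ v :: (u2 ++ v :: u3)`: induction hypothesis for `v` and `u2`: `Kd β v w`: `w ~ w_v ++ v^c`, `w_v` = `w`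
without `v`, `c ≥ 2`.  `w_v = p' ++ y :: (u' ++ y :: q')`, `u'` shorter, the letters of `u'` have the same counts
as in `w`: `Kd β y w_v`.  So `w ~ F ++ y^d ++ v^c`, `d ≥ 2`: it contains `y y`: ABS, both parts.
(3) `y ∉ u`, `u.Nodup`: every letter `c` of `u` occurs at least twice in `w` and once in `u`: `c ∈ p` or `c ∈ q`: KGP
with `m = u.length + 1` and KM. -/
def GthStmt : Prop := ∀ β : FIC, ModF β → CQ β → Iso3 β → ∀ (p u q : List ℕ) (y : ℕ),
  Mult u (p ++ y :: (u ++ y :: q)) → Kd β y (p ++ y :: (u ++ y :: q))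

/-- **F1X** (uses GTH).
PROOF. Both words of `F1L` satisfy `Kd β y` (GTH with `u = x :: c` and `u = c`; `x` occurs in `p ++ (c ++ q)` and once
more), and the words without `y` and the numbers of `y` are the same.  `F1R` in the same way. -/
def F1xStmt : Prop := ∀ β : FIC, ModF β → CQ β → Iso3 β → F1L β ∧ F1R β

/-- KPF. -/
def KpfStmt : Prop := ∀ β : FIC, CQ β → Iso3 β → ∀ (m : ℕ) (R : List ℕ) (G : List ℕ → Prop),
  1 ≤ m → R.Perm (List.range (m + 2)) → GOk β m R G → ∀ s w w' : List ℕ, Fam R G s w →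
    RR β w w' → Fam R G s w'

/-- PEF. -/
def PefStmt : Prop := ∀ β : FIC, ModF β → CQ β → Iso3 β → ∀ (m : ℕ) (R : List ℕ)
  (G : List ℕ → Prop) (c0 : List ℕ), 1 ≤ m → R.Perm (List.range (m + 2)) → GOk β m R G → G c0 →
    False

/-- PRP. -/
def PrpStmt : Prop := ∀ β : FIC, ModF β → CQ β → Iso3 β → ∀ (m : ℕ) (R c : List ℕ),
  R.Perm (List.range (m + 2)) → c.Perm (List.range m) →
    (∃ z l, c = z :: l ∧ rg β (Bfr R (z + 2) 1) (Bfr R 0 1)) →
    (∃ z l, c = l ++ [z] ∧ rg β (Bfr R (z + 2) 1) (Bfr R 0 1)) →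
    (¬ S2 β ∨ ∀ e < m, (Bfr R (e + 2) 1 ↔ Bfr R 0 1)) →
      RR β (Ew R c [0, 3]) (Ew R c [3, 0])

/-- FFC. -/
def FfcStmt : Prop := ∀ β : FIC, ModF β → CQ β → Iso3 β → S2 β → ¬ S1 β → ¬ S3 β → FF β

/-- FFL. -/
def FflStmt : Prop := ∀ β : FIC, ModF β → CQ β → Iso3 β → ¬ S2 β → F1L β → FF β

/-- FFR. -/
def FfrStmt : Prop := ∀ β : FIC, ModF β → CQ β → Iso3 β → ¬ S2 β → F1R β → FF β

/-- **KAX** (uses MIR of squad MVD, FFC, FFL, FFR, F1X).  THE CLASS DIVISION.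
PROOF. `R0`: substitute `2 ↦ 3 3` in `SQ`.  `MVD.MirStmt`: `CQ (mir β)` (reverse both words of `SQ`, `CU`),
`ModF (mir β)`, `Iso3 (mir β)`.  Case `S2 β`: `S1 β`: `Ca`; `S3 β`: `Ca'`; neither: `FF β` by FFC, and `FF (mir β)` by FFC
(`S2, S1, S3` of `mir β` are `S2, S3, S1` of `β`), that is `ZZ β`: `Cc`.  Case not `S2 β`: F1X: `F1L β`, `F1R β`; FFL:
`FF β`; `F1L (mir β)` (from `F1R β`) and FFL for `mir β`: `FF (mir β)`, that is `ZZ β`: `Ve`. -/
def KaxStmt : Prop := ∀ β : FIC, ModF β → CQ β → Iso3 β →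
  Ca β ∨ Ca' β ∨ Cc β ∨ Ve β ∨ Ve' β

end Pool.Agent.MVK
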